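import Pool.Agent.H727R2.TP.Tree

/-!
# Patterns in colourings without monochromatic triangles on exponentially many vertices (MP_39a5c3_co)

For all `k`, `d` there is a constant `C` such that every colouring with `r` colours, without monochromatic triangles, of
the complete graph on at least `C ^ r` vertices contains the following pattern on `k ^ d` vertices: the vertices are the
leaves of the `k`-ary tree of depth `d`, and two pairs have the same colour exactly if they branch at the same node towards
the same two children.
-/

set_option autoImplicit false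

namespace Pool.Agent.Results.MP_39a5c3_co.TreePatterns

/-- The words `x, y` (leaves of the `k`-ary tree of depth `d`) branch at the same node as `x', y'` and towards the same
two children of this node. -/
def SameSplit {k d : ℕ} (x y x' y' : Fin d → Fin k) : Prop :=
  ∃ j : Fin d, (∀ i : Fin d, i < j → x i = y i ∧ x' i = x i ∧ y' i = x i) ∧ x j ≠ y j ∧
    ((x' j = x j ∧ y' j = y j) ∨ (x' j = y j ∧ y' j = x j))

/-- For all `k`, `d` there is `C` such that for every symmetric colouring `c` of the pairs of a set `S` of at least
`C ^ r` points with `r` colours, either `S` contains a monochromatic triangle or there is an injective map `f` of the words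
of length `d` over `k` letters to `S` such that `c (f a) (f b) = c (f a') (f b')` exactly if `SameSplit a b a' b'`. -/
theorem result (k d : ℕ) : ∃ C : ℕ, ∀ (r : ℕ) (V : Type) (c : V → V → Fin r), (∀ x y, c x y = c y x) →
    ∀ S : Finset V, C ^ r ≤ S.card →
      (∃ x ∈ S, ∃ y ∈ S, ∃ z ∈ S, x ≠ y ∧ y ≠ z ∧ x ≠ z ∧ c x y = c y z ∧ c x y = c x z) ∨
      ∃ f : (Fin d → Fin k) → V, (∀ a, f a ∈ S) ∧ Function.Injective f ∧
        ∀ a b a' b', a ≠ b → a' ≠ b' → (c (f a) (f b) = c (f a') (f b') ↔ SameSplit a b a' b') := by
  obtain ⟨C, hC⟩ := H727R2.TP.unav_tree k d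
  refine ⟨C, fun r V c hs S hS => ?_⟩
  by_cases h : ∃ x ∈ S, ∃ y ∈ S, ∃ z ∈ S, x ≠ y ∧ y ≠ z ∧ x ≠ z ∧ c x y = c y z ∧ c x y = c x z
  · exact Or.inl h
  · right
    have hn : H727R2.TP.NoMono c S := by
      intro x hx y hy z hz h1 h2 h3 h4
      exact h ⟨x, hx, y, hy, z, hz, h1, h2, h3, h4⟩
    obtain ⟨f, hf, hinj, hcol⟩ := hC r V c hs S hn hS
    refine ⟨f, fun a => hf a (Finset.mem_univ a), fun a b hab => ?_, fun a b a' b' hab hab' => ?_⟩
    · by_contra hne
      exact hinj a (Finset.mem_univ a) b (Finset.mem_univ b) hne hab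
    · rw [hcol a (Finset.mem_univ a) b (Finset.mem_univ b) a' (Finset.mem_univ a') b' (Finset.mem_univ b') hab hab']
      exact H727R2.TP.lab_iff d a b a' b' hab hab'

end Pool.Agent.Results.MP_39a5c3_co.TreePatterns
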